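import Mathlib

/-!
# Field lemmas (packet L7 for MP_d69e80_al)
-/

namespace Pool.Agent.Helper16.TL

universe u

open Module Matrix Cardinal

theorem exists_countable_subfield {F : Type u} [Field F] {d : ℕ} (S : Finset (GL (Fin d) F)) :
    ∃ F' : Subfield F, Countable F' ∧ ∀ s ∈ S, ∃ s' : GL (Fin d) F',
      Matrix.GeneralLinearGroup.map F'.subtype s' = s := by
  classical
  let T : Set F := ⋃ s ∈ S, Set.range fun p : Fin d × Fin d => (s : Matrix (Fin d) (Fin d) F) p.1 p.2
  have hT : T.Countable :=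
    S.countable_toSet.biUnion fun s _ => Set.countable_range _
  refine ⟨Subfield.closure T, ?_, ?_⟩
  · rw [← Cardinal.mk_le_aleph0_iff]
    refine (Subfield.cardinalMk_closure_le_max T).trans (max_le ?_ le_rfl)
    exact Cardinal.mk_le_aleph0_iff.mpr hT.to_subtype
  · intro s hs
    have hmem : ∀ i j, (s : Matrix (Fin d) (Fin d) F) i j ∈ Subfield.closure T := by
      intro i j
      apply Subfield.subset_closure
      simp only [T, Set.mem_iUnion, Set.mem_range]
      exact ⟨s, hs, (i, j), rfl⟩
    let M : Matrix (Fin d) (Fin d) (Subfield.closure T) :=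
      Matrix.of fun i j => ⟨(s : Matrix (Fin d) (Fin d) F) i j, hmem i j⟩
    have hM : (Subfield.closure T).subtype.mapMatrix M = (s : Matrix (Fin d) (Fin d) F) := by
      ext i j; rfl
    have hdet : M.det ≠ 0 := by
      intro h
      have h2 : (Subfield.closure T).subtype M.det = 0 := by rw [h, map_zero]
      rw [RingHom.map_det, hM] at h2
      have h3 := (Matrix.isUnit_iff_isUnit_det (s : Matrix (Fin d) (Fin d) F)).mp s.isUnit
      rw [h2] at h3
      exact not_isUnit_zero h3
    refine ⟨Matrix.GeneralLinearGroup.mkOfDetNeZero M hdet, ?_⟩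
    ext i j
    rfl

theorem finrank_algebraicClosure_subfield {F : Type u} [Field F] [CharZero F] (F' : Subfield F)
    [FiniteDimensional ℚ (algebraicClosure ℚ F)] :
    FiniteDimensional ℚ (algebraicClosure ℚ F') ∧
      finrank ℚ (algebraicClosure ℚ F') ≤ finrank ℚ (algebraicClosure ℚ F) := by
  let i : F' →ₐ[ℚ] F := { F'.subtype with
    commutes' := fun r => by simp }
  let f : algebraicClosure ℚ F' →ₗ[ℚ] algebraicClosure ℚ F :=
    { toFun := fun x => ⟨i x, (map_mem_algebraicClosure_iff i).mpr x.2⟩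
      map_add' := fun x y => by ext; simp
      map_smul' := fun r x => by
        rw [Algebra.smul_def, Algebra.smul_def, RingHom.id_apply]
        apply Subtype.ext
        change i (algebraMap ℚ F' r * (x : F')) = algebraMap ℚ F r * i (x : F')
        rw [map_mul, AlgHom.commutes] }
  have hf : Function.Injective f := by
    intro x y h
    have h2 : i (x : F') = i (y : F') :=
      congrArg (fun z : algebraicClosure ℚ F => (z : F)) h
    exact Subtype.ext (i.injective h2)
  exact ⟨FiniteDimensional.of_injective f hf, LinearMap.finrank_le_finrank_of_injective hf⟩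

theorem exists_valuation_ne_one {k : Type u} [Field k] (θ : k) (h0 : θ ≠ 0)
    (h : ¬ (IsIntegral ℤ θ ∧ IsIntegral ℤ θ⁻¹)) :
    ∃ (Γ₀ : Type u) (_ : LinearOrderedCommGroupWithZero Γ₀) (v : Valuation k Γ₀), v θ ≠ 1 := by
  have key : ∀ x : k, ¬ IsIntegral ℤ x → ∃ (Γ₀ : Type u) (_ : LinearOrderedCommGroupWithZero Γ₀)
      (v : Valuation k Γ₀), 1 < v x := by
    intro x hx
    have hint : IsIntegrallyClosedIn (integralClosure ℤ k).toSubring k := inferInstance
    obtain ⟨V, _, hV⟩ := Subring.exists_le_valuationSubring_of_isIntegrallyClosedIn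
      (R := (integralClosure ℤ k).toSubring) (x := x) hx
    refine ⟨V.ValueGroup, inferInstance, V.valuation, ?_⟩
    rw [← not_le, V.valuation_le_one_iff]
    exact hV
  by_cases h1 : IsIntegral ℤ θ
  · obtain ⟨Γ, i, v, hv⟩ := key θ⁻¹ fun h2 => h ⟨h1, h2⟩
    refine ⟨Γ, i, v, fun h3 => ?_⟩
    rw [map_inv₀, h3, inv_one] at hv
    exact lt_irrefl _ hv
  · obtain ⟨Γ, i, v, hv⟩ := key θ h1
    exact ⟨Γ, i, v, hv.ne'⟩

theorem pow_eq_one_of_isIntegral_charP {k : Type u} [Field k] (p : ℕ) [Fact p.Prime] [CharP k p]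
    (θ : k) (h0 : θ ≠ 0) (h : IsIntegral ℤ θ) : ∃ n, 0 < n ∧ θ ^ n = 1 := by
  let _ : Algebra (ZMod p) k := ZMod.algebra k p
  have h1 : IsIntegral (ZMod p) θ := by
    obtain ⟨f, hf, hf0⟩ := h
    refine ⟨f.map (Int.castRingHom (ZMod p)), hf.map _, ?_⟩
    rw [Polynomial.eval₂_map]
    have : (algebraMap (ZMod p) k).comp (Int.castRingHom (ZMod p)) = algebraMap ℤ k :=
      RingHom.ext_int _ _
    rw [this]
    exact hf0
  let E := IntermediateField.adjoin (ZMod p) {θ}
  have : FiniteDimensional (ZMod p) E := IntermediateField.adjoin.finiteDimensional h1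
  have : Finite E := Module.finite_of_finite (ZMod p)
  have hθ : θ ∈ E := IntermediateField.mem_adjoin_simple_self _ _
  let x : E := ⟨θ, hθ⟩
  have hx : x ≠ 0 := fun h => h0 (congrArg Subtype.val h)
  have hfin : IsOfFinOrder (Units.mk0 x hx) := isOfFinOrder_of_finite _
  obtain ⟨n, hn, hn1⟩ := hfin.exists_pow_eq_one
  refine ⟨n, hn, ?_⟩
  have h2 := congrArg (fun u : Eˣ => ((u : E) : k)) hn1
  simpa using h2

theorem countable_algebraicClosure (F : Type u) [Field F] [Countable F] :
    Countable (AlgebraicClosure F) := by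
  rw [← Cardinal.mk_le_aleph0_iff]
  refine (Algebra.IsAlgebraic.cardinalMk_le_max F (AlgebraicClosure F)).trans (max_le ?_ le_rfl)
  exact Cardinal.mk_le_aleph0_iff.mpr inferInstance

end Pool.Agent.Helper16.TL
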